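import Pool.Agent.Helper1.FA.Trans

/-!
# Module COMPARE: comparison of transfer operators (T8)
-/

namespace Pool.Agent.Helper9.FA

open Finset

theorem cmp_lft {o1 o2 : (List ℕ → ℂ) → List ℕ → ℂ} {o3 : (List ℕ → ℝ) → List ℕ → ℝ} {r : ℂ}
    (ho : ∀ f w, ‖o1 f w - r * o2 f w‖ ≤ o3 (fun u => ‖f u‖) w) (k : ℕ) (f : List ℕ → ℂ)
    (w : List ℕ) : ‖lft o1 k f w - r * lft o2 k f w‖ ≤ lft o3 k (fun u => ‖f u‖) w := by
  induction k generalizing f w with
  | zero => exact ho f w
  | succ k ih =>
    cases w with
    | nil => simp [lft]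
    | cons y w => exact ih _ _

/-- the part of a weight outside of a window -/
def farK (near : ℕ → Bool) (κ0 : Ker ℝ) : Ker ℝ := fun n a b c d => if near n then 0 else κ0 n a b c d

theorem cmp_box {p : ℕ} {κ : Ker ℂ} {κ0 : Ker ℝ} {r : ℂ} {near : ℕ → Bool} {ε : ℝ}
    (hr : ‖r‖ ≤ 1) (hε : 0 ≤ ε) (h1 : ∀ n a b c d, ‖κ n a b c d‖ ≤ κ0 n a b c d)
    (h2 : ∀ n a b c d, near n = true →
      ‖κ n a b c d - r * (κ0 n a b c d : ℝ)‖ ≤ ε * κ0 n a b c d) (f : List ℕ → ℂ)
    (w : List ℕ) :
    ‖boxT p κ f w - r * boxT p (Ker.toC κ0) f w‖ ≤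
      boxT p (fun n a b c d => ε * κ0 n a b c d + 2 * farK near κ0 n a b c d)
        (fun u => ‖f u‖) w := by
  have h0 : ∀ n a b c d, 0 ≤ κ0 n a b c d := fun n a b c d => (norm_nonneg _).trans (h1 n a b c d)
  have hk : ∀ n a b c d, ‖κ n a b c d - r * (κ0 n a b c d : ℝ)‖ ≤
      ε * κ0 n a b c d + 2 * farK near κ0 n a b c d := by
    intro n a b c d
    unfold farK
    by_cases h : near n = true
    · rw [if_pos h]
      simpa using h2 n a b c d h
    · rw [if_neg h]
      refine (norm_sub_le _ _).trans ?_
      rw [norm_mul, Complex.norm_real, Real.norm_of_nonneg (h0 n a b c d)]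
      have := h1 n a b c d
      have h3 : ‖r‖ * κ0 n a b c d ≤ κ0 n a b c d := by
        nlinarith [h0 n a b c d]
      nlinarith [mul_nonneg hε (h0 n a b c d)]
  match w with
  | [] => simp [boxT]
  | [_] => simp [boxT]
  | [_, _] => simp [boxT]
  | x :: t :: y :: u =>
    simp only [boxT]
    split_ifs
    · rw [Finset.mul_sum, ← Finset.sum_sub_distrib]
      refine (norm_sum_le _ _).trans (Finset.sum_le_sum fun i _ => ?_)
      rw [Finset.mul_sum, ← Finset.sum_sub_distrib]
      refine (norm_sum_le _ _).trans (Finset.sum_le_sum fun j _ => ?_)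
      rw [Finset.mul_sum, ← Finset.sum_sub_distrib]
      refine (norm_sum_le _ _).trans (Finset.sum_le_sum fun l _ => ?_)
      have : κ i j l (t - j - l) (p - t) * f ((x + j) :: (t - j - l) :: (y + l) :: u) -
          r * (Ker.toC κ0 i j l (t - j - l) (p - t) *
            f ((x + j) :: (t - j - l) :: (y + l) :: u)) =
          (κ i j l (t - j - l) (p - t) - r * (κ0 i j l (t - j - l) (p - t) : ℝ)) *
            f ((x + j) :: (t - j - l) :: (y + l) :: u) := by
        unfold Ker.toC; ring
      rw [this, norm_mul]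
      exact mul_le_mul_of_nonneg_right (hk _ _ _ _ _) (norm_nonneg _)
    · simp

/-- the comparison for complex functions -/
theorem cmp_main {α : Type} {p : ℕ} {P : List (Item α)} {κs : List (Ker ℂ)} {κ0s : List (Ker ℝ)}
    {rs : List ℂ} {near : List (ℕ → Bool)} {ε : ℝ} (hε0 : 0 ≤ ε) (G : List ℕ → ℂ)
    (hl : (labels P).length = κs.length) (hl0 : κ0s.length = κs.length)
    (hlr : rs.length = κs.length) (hln : near.length = κs.length)
    (hr : ∀ r ∈ rs, ‖r‖ ≤ 1)
    (h1 : ∀ i (hi : i < κs.length), ∀ n a b c d,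
      ‖κs[i] n a b c d‖ ≤ κ0s[i] n a b c d)
    (h2 : ∀ i (hi : i < κs.length), ∀ n a b c d, near[i] n = true →
      ‖κs[i] n a b c d - rs[i] * (κ0s[i] n a b c d : ℝ)‖ ≤ ε * κ0s[i] n a b c d) :
    ‖TrP p P κs G [0, 0] - rs.prod * TrP p P (κ0s.map Ker.toC) G [0, 0]‖ ≤
      ε * κs.length * TrP p P κ0s (fun d => ‖G d‖) [0, 0] +
      2 * ∑ i ∈ range κs.length, TrP p P (κ0s.set i (farK (near.getD i (fun _ => true))
        (κ0s.getD i (fun _ _ _ _ _ => 0)))) (fun d => ‖G d‖) [0, 0] := by
  induction P generalizing κs κ0s rs near G with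
  | nil =>
    have e1 : κs = [] := List.length_eq_zero_iff.1 (by rw [← hl]; rfl)
    subst e1
    have e2 : κ0s = [] := List.length_eq_zero_iff.1 (by rw [hl0]; rfl)
    subst e2
    have e3 : rs = [] := List.length_eq_zero_iff.1 (by rw [hlr]; rfl)
    subst e3
    simp [TrP]
  | cons I P ih =>
    have mono : ∀ {κ0s' : List (Ker ℝ)} {g g' : List ℕ → ℝ},
        (∀ κ ∈ κ0s', ∀ n a b c d, 0 ≤ κ n a b c d) → (∀ d, g d ≤ g' d) →
        TrP p P κ0s' g [0, 0] ≤ TrP p P κ0s' g' [0, 0] := fun h h' => TrP_mono h h' _
    have nn : ∀ κ ∈ κ0s, ∀ n a b c d, 0 ≤ κ n a b c d := by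
      intro κ hκ n a b c d
      obtain ⟨i, hi, rfl⟩ := List.getElem_of_mem hκ
      exact (norm_nonneg _).trans (h1 i (by omega) n a b c d)
    have nnset : ∀ i, ∀ κ ∈ κ0s.set i (farK (near.getD i (fun _ => true))
        (κ0s.getD i (fun _ _ _ _ _ => 0))), ∀ n a b c d, 0 ≤ κ n a b c d := by
      intro i κ hκ n a b c d
      rcases List.mem_or_eq_of_mem_set hκ with h | h
      · exact nn κ h n a b c d
      · subst h
        unfold farK
        split_ifs
        · exact le_refl _
        · rw [List.getD_eq_getElem?_getD]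
          by_cases hi : i < κ0s.length
          · rw [List.getElem?_eq_getElem hi]
            exact nn _ (List.getElem_mem hi) n a b c d
          · rw [List.getElem?_eq_none (by omega)]
            exact le_refl _
    cases I with
    | cup k =>
      have hG : ∀ d, ‖lft (cupT p) k G d‖ ≤ lft (cupT p) k (fun u => ‖G u‖) d := by
        intro d
        have := TrP_norm_le (p := p) (P := [Item.cup (α := ℕ) k]) (κs := []) (κ0s := [])
          List.Forall₂.nil (g := G) (g0 := fun u => ‖G u‖) (fun u => le_refl _) d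
        exact this
      refine (ih (lft (cupT p) k G) hl hl0 hlr hln hr h1 h2).trans ?_
      refine add_le_add ?_ ?_
      · exact mul_le_mul_of_nonneg_left (mono nn hG) (by positivity)
      · refine mul_le_mul_of_nonneg_left (Finset.sum_le_sum fun i _ => ?_) (by norm_num)
        exact mono (nnset i) hG
    | cap k =>
      have hG : ∀ d, ‖lft (capT p) k G d‖ ≤ lft (capT p) k (fun u => ‖G u‖) d := by
        intro d
        have := TrP_norm_le (p := p) (P := [Item.cap (α := ℕ) k]) (κs := []) (κ0s := [])
          List.Forall₂.nil (g := G) (g0 := fun u => ‖G u‖) (fun u => le_refl _) d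
        exact this
      refine (ih (lft (capT p) k G) hl hl0 hlr hln hr h1 h2).trans ?_
      refine add_le_add ?_ ?_
      · exact mul_le_mul_of_nonneg_left (mono nn hG) (by positivity)
      · refine mul_le_mul_of_nonneg_left (Finset.sum_le_sum fun i _ => ?_) (by norm_num)
        exact mono (nnset i) hG
    | box k a =>
      cases κs with
      | nil => simp [labels] at hl
      | cons κ κs =>
      cases κ0s with
      | nil => simp at hl0
      | cons κ0 κ0s =>
      cases rs with
      | nil => simp at hlr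
      | cons r rs =>
      cases near with
      | nil => simp at hln
      | cons nr near =>
        have hκ1 : ∀ n a b c d, ‖κ n a b c d‖ ≤ κ0 n a b c d := h1 0 (by simp)
        have hκ2 : ∀ n a b c d, nr n = true →
          ‖κ n a b c d - r * (κ0 n a b c d : ℝ)‖ ≤ ε * κ0 n a b c d := h2 0 (by simp)
        have hr1 : ‖r‖ ≤ 1 := hr r (by simp)
        have nn0 : ∀ κ ∈ κ0s, ∀ n a b c d, 0 ≤ κ n a b c d := fun κ h => nn κ (by simp [h])
        have hG : ∀ d, ‖lft (boxT p κ) k G d‖ ≤ lft (boxT p κ0) k (fun u => ‖G u‖) d := by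
          intro d
          have := TrP_norm_le (p := p) (P := [Item.box (α := ℕ) k 0]) (κs := [κ]) (κ0s := [κ0])
            (List.Forall₂.cons hκ1 List.Forall₂.nil) (g := G) (g0 := fun u => ‖G u‖)
            (fun u => le_refl _) d
          exact this
        have IH := ih (κs := κs) (κ0s := κ0s) (rs := rs) (near := near) (lft (boxT p κ) k G)
          (by simpa [labels] using hl) (by simpa using hl0) (by simpa using hlr)
          (by simpa using hln) (fun r h => hr r (by simp [h]))
          (fun i hi => h1 (i + 1) (by simpa using hi))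
          (fun i hi => h2 (i + 1) (by simpa using hi))
        simp only [TrP, List.map_cons, List.prod_cons, List.length_cons]
        set V := κs.length
        set T1 := TrP p P κs (lft (boxT p κ) k G) [0, 0] with hT1
        set T2 := TrP p P (κ0s.map Ker.toC) (lft (boxT p κ) k G) [0, 0] with hT2
        set T3 := TrP p P (κ0s.map Ker.toC) (lft (boxT p (Ker.toC κ0)) k G) [0, 0] with hT3
        -- the second difference
        have hd : ‖T2 - r * T3‖ ≤ ε * TrP p P κ0s (lft (boxT p κ0) k (fun u => ‖G u‖)) [0, 0] +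
            2 * TrP p P κ0s (lft (boxT p (farK nr κ0)) k (fun u => ‖G u‖)) [0, 0] := by
          rw [hT2, hT3, ← TrP_mul, ← TrP_sub]
          have hf : List.Forall₂ (fun (κ : Ker ℂ) (κ0 : Ker ℝ) => ∀ n a b c d,
              ‖κ n a b c d‖ ≤ κ0 n a b c d) (κ0s.map Ker.toC) κ0s := by
            clear IH ih hT2 hT3 T2 T3 hl0 h1 h2 nn nnset
            induction κ0s with
            | nil => exact List.Forall₂.nil
            | cons x xs ihx =>
              refine List.Forall₂.cons (fun n a b c d => ?_) (ihx fun κ h => nn0 κ (by simp [h]))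
              unfold Ker.toC
              rw [Complex.norm_real, Real.norm_of_nonneg (nn0 x (by simp) _ _ _ _ _)]
          refine (TrP_norm_le hf (g0 := lft (boxT p (fun n a b c d => ε * κ0 n a b c d +
            2 * farK nr κ0 n a b c d)) k (fun u => ‖G u‖))
            (fun d => cmp_lft (cmp_box hr1 hε0 hκ1 hκ2) k G d) [0, 0]).trans (le_of_eq ?_)
          rw [← TrP_mul, ← TrP_mul, ← TrP_add]
          congr 1
          funext w
          -- the operator is additive in the weight
          have hadd : ∀ (f : List ℕ → ℝ) w, boxT p (fun n a b c d => ε * κ0 n a b c d +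
              2 * farK nr κ0 n a b c d) f w = ε * boxT p κ0 f w + 2 * boxT p (farK nr κ0) f w := by
            intro f w
            match w with
            | [] => simp [boxT]
            | [_] => simp [boxT]
            | [_, _] => simp [boxT]
            | x :: t :: y :: u =>
              simp only [boxT]
              split_ifs
              · simp only [Finset.mul_sum, ← Finset.sum_add_distrib]
                refine Finset.sum_congr rfl fun i _ => Finset.sum_congr rfl fun j _ =>
                  Finset.sum_congr rfl fun l _ => ?_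
                ring
              · simp
          have : ∀ (k : ℕ) (f : List ℕ → ℝ) (w : List ℕ), lft (boxT p (fun n a b c d =>
              ε * κ0 n a b c d + 2 * farK nr κ0 n a b c d)) k f w =
              ε * lft (boxT p κ0) k f w + 2 * lft (boxT p (farK nr κ0)) k f w := by
            intro k
            induction k with
            | zero => exact hadd
            | succ k ihk =>
              intro f w
              cases w with
              | nil => simp [lft]
              | cons y w => exact ihk _ _
          exact this k _ w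
        have hprod : ‖rs.prod‖ ≤ 1 := by
          have : ∀ rs : List ℂ, (∀ r ∈ rs, ‖r‖ ≤ 1) → ‖rs.prod‖ ≤ 1 := by
            intro rs
            induction rs with
            | nil => intro _; simp
            | cons x xs ihx =>
              intro h
              rw [List.prod_cons, norm_mul]
              exact mul_le_one₀ (h x (by simp)) (norm_nonneg _) (ihx fun y hy => h y (by simp [hy]))
          exact this rs fun r h => hr r (by simp [h])
        have e : T1 - r * rs.prod * T3 = (T1 - rs.prod * T2) + rs.prod * (T2 - r * T3) := by ring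
        rw [e]
        refine (norm_add_le _ _).trans ?_
        rw [norm_mul]
        have A1 := IH
        have A2 : ‖rs.prod‖ * ‖T2 - r * T3‖ ≤ ‖T2 - r * T3‖ :=
          mul_le_of_le_one_left (norm_nonneg _) hprod
        have B1 : TrP p P κ0s (fun d => ‖lft (boxT p κ) k G d‖) [0, 0] ≤
            TrP p P κ0s (lft (boxT p κ0) k (fun u => ‖G u‖)) [0, 0] := mono nn0 hG
        have B2 : ∑ i ∈ range V, TrP p P (κ0s.set i (farK (near.getD i (fun _ => true))
            (κ0s.getD i (fun _ _ _ _ _ => 0)))) (fun d => ‖lft (boxT p κ) k G d‖) [0, 0] ≤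
            ∑ i ∈ range V, TrP p P (κ0s.set i (farK (near.getD i (fun _ => true))
            (κ0s.getD i (fun _ _ _ _ _ => 0)))) (lft (boxT p κ0) k (fun u => ‖G u‖)) [0, 0] := by
          refine Finset.sum_le_sum fun i _ => mono ?_ hG
          intro κ' hκ' n a b c d
          refine nnset (i + 1) κ' ?_ n a b c d
          simp only [List.set_cons_succ, List.getD_cons_succ, List.mem_cons]
          exact Or.inr hκ'
        have C1 : ∑ i ∈ range (V + 1), TrP p (Item.box k a :: P) ((κ0 :: κ0s).set i
            (farK ((nr :: near).getD i (fun _ => true))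
            ((κ0 :: κ0s).getD i (fun _ _ _ _ _ => 0)))) (fun d => ‖G d‖) [0, 0] =
            ∑ i ∈ range V, TrP p P (κ0s.set i (farK (near.getD i (fun _ => true))
            (κ0s.getD i (fun _ _ _ _ _ => 0)))) (lft (boxT p κ0) k (fun u => ‖G u‖)) [0, 0] +
            TrP p P κ0s (lft (boxT p (farK nr κ0)) k (fun u => ‖G u‖)) [0, 0] := by
          rw [Finset.sum_range_succ']
          rfl
        rw [C1]
        have hV : (0 : ℝ) ≤ ε * V := by positivity
        have D1 := mul_le_mul_of_nonneg_left B1 hV
        push_cast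
        nlinarith [A1, A2, hd, D1, B2]

/-- the comparison: `κs` and `rs i • κ0s i` are close in the windows `near i` -/
theorem TrP_compare {α : Type} {p : ℕ} {P : List (Item α)} {κs : List (Ker ℂ)} {κ0s : List (Ker ℝ)}
    {rs : List ℂ} {near : List (ℕ → Bool)} {ε : ℝ} (hε0 : 0 ≤ ε) (g : List ℕ → ℝ)
    (hg : ∀ d, 0 ≤ g d) (hl : (labels P).length = κs.length) (hl0 : κ0s.length = κs.length)
    (hlr : rs.length = κs.length) (hln : near.length = κs.length)
    (hr : ∀ r ∈ rs, ‖r‖ ≤ 1)
    (h0 : ∀ κ ∈ κ0s, ∀ n a b c d, 0 ≤ κ n a b c d)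
    (h1 : ∀ i (hi : i < κs.length), ∀ n a b c d,
      ‖κs[i] n a b c d‖ ≤ κ0s[i] n a b c d)
    (h2 : ∀ i (hi : i < κs.length), ∀ n a b c d, near[i] n = true →
      ‖κs[i] n a b c d - rs[i] * (κ0s[i] n a b c d : ℝ)‖ ≤ ε * κ0s[i] n a b c d) :
    ‖TrP p P κs (fun d => ((g d : ℝ) : ℂ)) [0, 0] - rs.prod * ((TrP p P κ0s g [0, 0] : ℝ) : ℂ)‖ ≤
      ε * κs.length * TrP p P κ0s g [0, 0] +
      2 * ∑ i ∈ range κs.length, TrP p P (κ0s.set i (fun n a b c d =>
        if near.getD i (fun _ => true) n then 0 else κ0s.getD i (fun _ _ _ _ _ => 0) n a b c d))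
          g [0, 0] := by
  have := cmp_main (p := p) hε0 (fun d => ((g d : ℝ) : ℂ)) hl hl0 hlr hln hr h1 h2
  rw [TrP_ofReal] at this
  have e : (fun d => ‖((g d : ℝ) : ℂ)‖) = g := by
    funext d
    rw [Complex.norm_real, Real.norm_of_nonneg (hg d)]
  rw [e] at this
  exact this

end Pool.Agent.Helper9.FA
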