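import Pool.Agent.Helper1.FA.Trans

/-!
# `TrP_smul` (part of module VALUE): constant factors of the weights (T8)
-/

namespace Pool.Agent.Helper9.FA

open Finset

/-- a constant factor of all weights -/
theorem TrP_smul {α : Type} (p : ℕ) (P : List (Item α)) (κs : List (Ker ℂ))
    (hl : (labels P).length = κs.length) (c : List ℂ) (hc : c.length = κs.length)
    (g : List ℕ → ℂ) (w : List ℕ) :
    TrP p P (List.zipWith (fun (x : ℂ) (κ : Ker ℂ) n a b c d => x * κ n a b c d) c κs) g w =
      c.prod * TrP p P κs g w := by
  induction P generalizing κs c g with
  | nil =>
    have h1 : κs = [] := List.length_eq_zero_iff.1 (by rw [← hl]; rfl)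
    subst h1
    have h2 : c = [] := List.length_eq_zero_iff.1 (by rw [hc]; rfl)
    subst h2
    simp [TrP]
  | cons I P ih =>
    cases I with
    | cup k => exact ih κs hl c hc _
    | cap k => exact ih κs hl c hc _
    | box k a =>
      cases κs with
      | nil => simp [labels] at hl
      | cons κ κs =>
        cases c with
        | nil => simp at hc
        | cons x c =>
          simp only [List.zipWith_cons_cons, TrP, List.prod_cons]
          have hl' : (labels P).length = κs.length := by simpa [labels] using hl
          have hc' : c.length = κs.length := by simpa using hc
          rw [ih κs hl' c hc']
          have hb : ∀ (f : List ℕ → ℂ) w,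
              boxT p (fun n a b c d => x * κ n a b c d) f w = x * boxT p κ f w := by
            intro f w
            match w with
            | [] => simp [boxT]
            | [_] => simp [boxT]
            | [_, _] => simp [boxT]
            | x' :: t :: y :: u =>
              simp only [boxT]
              split_ifs
              · rw [Finset.mul_sum]
                refine Finset.sum_congr rfl fun i _ => ?_
                rw [Finset.mul_sum]
                refine Finset.sum_congr rfl fun j _ => ?_
                rw [Finset.mul_sum]
                refine Finset.sum_congr rfl fun l _ => ?_
                ring
              · simp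
          have e : lft (boxT p (fun n a b c d => x * κ n a b c d)) k g =
              fun d => x * lft (boxT p κ) k g d := by
            funext w
            exact tr_lft_smul hb k g w
          rw [e, TrP_mul]
          ring

end Pool.Agent.Helper9.FA
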