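import Mathlib
import Pool.Agent.Helper9.FA.ZDefs

/-!
# Module TRANS: estimates for transfer operators (T8)
-/

namespace Pool.Agent.Helper9.FA

open Finset

/-! ### `lft` -/

section
variable {R : Type} [CommSemiring R]

theorem tr_lft_append (op : (List ℕ → R) → List ℕ → R) (l w : List ℕ) (g : List ℕ → R) :
    lft op l.length g (l ++ w) = op (fun u => g (l ++ u)) w := by
  induction l generalizing g with
  | nil => rfl
  | cons x l ih => simpa [lft] using ih (fun u => g (x :: u))

theorem tr_lft_cases (op : (List ℕ → R) → List ℕ → R) (k : ℕ) (w : List ℕ) :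
    (∀ g, lft op k g w = 0) ∨ ∃ l w', w = l ++ w' ∧ l.length = k ∧
      ∀ g, lft op k g w = op (fun u => g (l ++ u)) w' := by
  induction k generalizing w with
  | zero => exact Or.inr ⟨[], w, rfl, rfl, fun g => rfl⟩
  | succ k ih =>
    cases w with
    | nil => exact Or.inl fun g => rfl
    | cons x w =>
      rcases ih w with h | ⟨l, w', h1, h2, h3⟩
      · exact Or.inl fun g => h _
      · refine Or.inr ⟨x :: l, w', by rw [h1]; rfl, by simp [h2], fun g => ?_⟩
        exact h3 (fun u => g (x :: u))

theorem tr_lft_smul {o1 o2 : (List ℕ → R) → List ℕ → R} {x : R}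
    (h : ∀ f w, o1 f w = x * o2 f w) (k : ℕ) (g : List ℕ → R) (w : List ℕ) :
    lft o1 k g w = x * lft o2 k g w := by
  induction k generalizing g w with
  | zero => exact h g w
  | succ k ih =>
    cases w with
    | nil => simp [lft]
    | cons y w => exact ih _ _

end

/-! ### relations between three transfer operators -/

section
variable {R₁ R₂ R₃ : Type} [CommSemiring R₁] [CommSemiring R₂] [CommSemiring R₃]

/-- an additive relation -/
structure RelA (r : R₁ → R₂ → R₃ → Prop) : Prop where
  zero : r 0 0 0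
  add : ∀ {a b c a' b' c'}, r a b c → r a' b' c' → r (a + a') (b + b') (c + c')

variable {r : R₁ → R₂ → R₃ → Prop}

theorem RelA.sum (hr : RelA r) (s : Finset ℕ) {f : ℕ → R₁} {g : ℕ → R₂} {h : ℕ → R₃}
    (H : ∀ i ∈ s, r (f i) (g i) (h i)) : r (∑ i ∈ s, f i) (∑ i ∈ s, g i) (∑ i ∈ s, h i) := by
  induction s using Finset.induction_on with
  | empty => simpa using hr.zero
  | insert a s ha ih =>
    rw [Finset.sum_insert ha, Finset.sum_insert ha, Finset.sum_insert ha]
    exact hr.add (H a (Finset.mem_insert_self a s))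
      (ih fun i hi => H i (Finset.mem_insert_of_mem hi))

theorem rel_lft (hr : RelA r) {o1 : (List ℕ → R₁) → List ℕ → R₁} {o2 : (List ℕ → R₂) → List ℕ → R₂}
    {o3 : (List ℕ → R₃) → List ℕ → R₃}
    (ho : ∀ f g h, (∀ u, r (f u) (g u) (h u)) → ∀ w, r (o1 f w) (o2 g w) (o3 h w)) (k : ℕ)
    (f : List ℕ → R₁) (g : List ℕ → R₂) (h : List ℕ → R₃) (H : ∀ u, r (f u) (g u) (h u))
    (w : List ℕ) : r (lft o1 k f w) (lft o2 k g w) (lft o3 k h w) := by
  induction k generalizing w f g h with
  | zero => exact ho f g h H w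
  | succ k ih =>
    cases w with
    | nil => exact hr.zero
    | cons x w => exact ih _ _ _ (fun u => H (x :: u)) w

theorem rel_cup (hr : RelA r) (p : ℕ) (f : List ℕ → R₁) (g : List ℕ → R₂) (h : List ℕ → R₃)
    (H : ∀ u, r (f u) (g u) (h u)) (w : List ℕ) : r (cupT p f w) (cupT p g w) (cupT p h w) := by
  match w with
  | [] => exact hr.zero
  | [_] => exact hr.zero
  | [_, _] => exact hr.zero
  | a :: e :: b :: u =>
    simp only [cupT]
    split_ifs
    · exact H _
    · exact hr.zero

theorem rel_cap (hr : RelA r) (p : ℕ) (f : List ℕ → R₁) (g : List ℕ → R₂) (h : List ℕ → R₃)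
    (H : ∀ u, r (f u) (g u) (h u)) (w : List ℕ) : r (capT p f w) (capT p g w) (capT p h w) := by
  match w with
  | [] => exact hr.zero
  | x :: u =>
    simp only [capT]
    exact hr.sum _ fun i _ => H _

theorem rel_box (hr : RelA r) (p : ℕ) {κ1 : Ker R₁} {κ2 : Ker R₂} {κ3 : Ker R₃}
    (hκ : ∀ n a b c d x y z, r x y z → r (κ1 n a b c d * x) (κ2 n a b c d * y) (κ3 n a b c d * z))
    (f : List ℕ → R₁) (g : List ℕ → R₂) (h : List ℕ → R₃)
    (H : ∀ u, r (f u) (g u) (h u)) (w : List ℕ) :
    r (boxT p κ1 f w) (boxT p κ2 g w) (boxT p κ3 h w) := by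
  match w with
  | [] => exact hr.zero
  | [_] => exact hr.zero
  | [_, _] => exact hr.zero
  | x :: t :: y :: u =>
    simp only [boxT]
    split_ifs
    · exact hr.sum _ fun i _ => hr.sum _ fun j _ => hr.sum _ fun k _ => hκ _ _ _ _ _ _ _ _ (H _)
    · exact hr.zero

/-- relations between kernels -/
inductive RelK (r : R₁ → R₂ → R₃ → Prop) : List (Ker R₁) → List (Ker R₂) → List (Ker R₃) → Prop
  | nil : RelK r [] [] []
  | cons {κ1 κ2 κ3 l1 l2 l3}
      (h : ∀ n a b c d x y z, r x y z →
        r (κ1 n a b c d * x) (κ2 n a b c d * y) (κ3 n a b c d * z)) (h' : RelK r l1 l2 l3) :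
      RelK r (κ1 :: l1) (κ2 :: l2) (κ3 :: l3)

theorem rel_TrP (hr : RelA r) {α : Type} (p : ℕ) (P : List (Item α)) {l1 : List (Ker R₁)}
    {l2 : List (Ker R₂)} {l3 : List (Ker R₃)} (hl : RelK r l1 l2 l3)
    (f : List ℕ → R₁) (g : List ℕ → R₂) (h : List ℕ → R₃) (H : ∀ u, r (f u) (g u) (h u))
    (w : List ℕ) : r (TrP p P l1 f w) (TrP p P l2 g w) (TrP p P l3 h w) := by
  induction P generalizing l1 l2 l3 f g h with
  | nil => exact H w
  | cons I P ih =>
    cases I with
    | cup k => exact ih hl _ _ _ (rel_lft hr (rel_cup hr p) k f g h H)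
    | cap k => exact ih hl _ _ _ (rel_lft hr (rel_cap hr p) k f g h H)
    | box k a =>
      cases hl with
      | nil => exact hr.zero
      | cons h1 h2 => exact ih h2 _ _ _ (rel_lft hr (rel_box hr p h1) k f g h H)

end

/-! ### consequences -/

theorem TrP_nonneg {α : Type} {p : ℕ} {P : List (Item α)} {κs : List (Ker ℝ)} {g : List ℕ → ℝ}
    (h0 : ∀ κ ∈ κs, ∀ n a b c d, 0 ≤ κ n a b c d) (hg : ∀ d, 0 ≤ g d) (w : List ℕ) :
    0 ≤ TrP p P κs g w := by
  have hr : RelA (fun (x : ℝ) (_ : ℝ) (_ : ℝ) => 0 ≤ x) := ⟨le_refl _, fun h h' => add_nonneg h h'⟩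
  refine rel_TrP (r := fun (x : ℝ) (_ : ℝ) (_ : ℝ) => 0 ≤ x) hr p P (l1 := κs) (l2 := κs)
    (l3 := κs) ?_ g g g hg w
  induction κs with
  | nil => exact RelK.nil
  | cons κ κs ih =>
    exact RelK.cons (fun n a b c d x y z hx => mul_nonneg (h0 κ (by simp) n a b c d) hx)
      (ih fun κ' hκ' => h0 κ' (by simp [hκ']))

/-- a real weight as a complex weight -/
def Ker.toC (κ : Ker ℝ) : Ker ℂ := fun n a b c d => ((κ n a b c d : ℝ) : ℂ)

theorem TrP_ofReal {α : Type} (p : ℕ) (P : List (Item α)) (κs : List (Ker ℝ)) (g : List ℕ → ℝ)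
    (w : List ℕ) : TrP p P (κs.map Ker.toC) (fun d => ((g d : ℝ) : ℂ)) w =
      ((TrP p P κs g w : ℝ) : ℂ) := by
  have hr : RelA (fun (x : ℂ) (y : ℝ) (_ : ℝ) => x = (y : ℂ)) :=
    ⟨by simp, fun h h' => by rw [h, h']; simp⟩
  refine rel_TrP (r := fun (x : ℂ) (y : ℝ) (_ : ℝ) => x = (y : ℂ)) hr p P (l1 := κs.map Ker.toC)
    (l2 := κs) (l3 := κs) ?_ (fun d => ((g d : ℝ) : ℂ)) g g (fun u => rfl) w
  induction κs with
  | nil => exact RelK.nil
  | cons κ κs ih =>
    exact RelK.cons (fun n a b c d x y z hx => by rw [hx]; simp [Ker.toC]) ih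

theorem prodK_toC (κs : List (Ker ℝ)) (cs : List (Cor ℕ)) :
    prodK (κs.map Ker.toC) cs = ((prodK κs cs : ℝ) : ℂ) := by
  induction κs generalizing cs with
  | nil =>
    cases cs with
    | nil => simp [prodK]
    | cons c cs => simp [prodK]
  | cons κ κs ih =>
    cases cs with
    | nil => simp [prodK]
    | cons c cs => simp [prodK, ih, Ker.toC]

/-- `‖·‖ ≤ ·` -/
theorem TrP_norm_le {α : Type} {p : ℕ} {P : List (Item α)} {κs : List (Ker ℂ)} {κ0s : List (Ker ℝ)}
    (hκ : List.Forall₂ (fun (κ : Ker ℂ) (κ0 : Ker ℝ) => ∀ n a b c d,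
      ‖κ n a b c d‖ ≤ κ0 n a b c d) κs κ0s) {g : List ℕ → ℂ} {g0 : List ℕ → ℝ}
    (hg : ∀ d, ‖g d‖ ≤ g0 d) (w : List ℕ) : ‖TrP p P κs g w‖ ≤ TrP p P κ0s g0 w := by
  have hr : RelA (fun (x : ℂ) (y : ℝ) (_ : ℝ) => ‖x‖ ≤ y) :=
    ⟨by simp, fun h h' => (norm_add_le _ _).trans (add_le_add h h')⟩
  refine rel_TrP (r := fun (x : ℂ) (y : ℝ) (_ : ℝ) => ‖x‖ ≤ y) hr p P (l1 := κs)
    (l2 := κ0s) (l3 := κ0s) ?_ g g0 g0 hg w
  induction hκ with
  | nil => exact RelK.nil
  | cons h1 _ ih =>
    refine RelK.cons (fun n a b c d x y z hx => ?_) ih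
    rw [norm_mul]
    exact mul_le_mul (h1 n a b c d) hx (norm_nonneg _) ((norm_nonneg _).trans (h1 n a b c d))

theorem TrP_mono {α : Type} {p : ℕ} {P : List (Item α)} {κs : List (Ker ℝ)} {g g' : List ℕ → ℝ}
    (h0 : ∀ κ ∈ κs, ∀ n a b c d, 0 ≤ κ n a b c d) (hg : ∀ d, g d ≤ g' d) (w : List ℕ) :
    TrP p P κs g w ≤ TrP p P κs g' w := by
  have hr : RelA (fun (x : ℝ) (y : ℝ) (_ : ℝ) => x ≤ y) := ⟨le_refl _, fun h h' => add_le_add h h'⟩
  refine rel_TrP (r := fun (x : ℝ) (y : ℝ) (_ : ℝ) => x ≤ y) hr p P (l1 := κs) (l2 := κs)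
    (l3 := κs) ?_ g g' g' hg w
  induction κs with
  | nil => exact RelK.nil
  | cons κ κs ih =>
    exact RelK.cons (fun n a b c d x y z hx => mul_le_mul_of_nonneg_left hx
      (h0 κ (by simp) n a b c d)) (ih fun κ' hκ' => h0 κ' (by simp [hκ']))

theorem RelK.self {R : Type} [CommSemiring R] {r : R → R → R → Prop}
    (h : ∀ k x y z : R, r x y z → r (k * x) (k * y) (k * z)) (κs : List (Ker R)) :
    RelK r κs κs κs := by
  induction κs with
  | nil => exact RelK.nil
  | cons κ κs ih => exact RelK.cons (fun n a b c d x y z hx => h _ x y z hx) ih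

/-- additivity -/
theorem TrP_add {R : Type} [CommSemiring R] {α : Type} {p : ℕ} {P : List (Item α)}
    {κs : List (Ker R)} (g g' : List ℕ → R) (w : List ℕ) :
    TrP p P κs (fun d => g d + g' d) w = TrP p P κs g w + TrP p P κs g' w := by
  have hr : RelA (fun (x : R) (y : R) (z : R) => x = y + z) :=
    ⟨by simp, fun h h' => by rw [h, h']; exact add_add_add_comm _ _ _ _⟩
  exact rel_TrP (r := fun (x : R) (y : R) (z : R) => x = y + z) hr p P
    (RelK.self (fun k x y z hx => by rw [hx, mul_add]) κs) _ g g' (fun u => rfl) w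

/-- homogeneity -/
theorem TrP_mul {R : Type} [CommSemiring R] {α : Type} {p : ℕ} {P : List (Item α)}
    {κs : List (Ker R)} (c : R) (g : List ℕ → R) (w : List ℕ) :
    TrP p P κs (fun d => c * g d) w = c * TrP p P κs g w := by
  have hr : RelA (fun (x : R) (y : R) (_ : R) => x = c * y) :=
    ⟨by simp, fun h h' => by rw [h, h']; exact (mul_add _ _ _).symm⟩
  exact rel_TrP (r := fun (x : R) (y : R) (_ : R) => x = c * y) hr p P
    (RelK.self (fun k x y z hx => by rw [hx]; exact mul_left_comm _ _ _) κs) _ g g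
    (fun u => rfl) w

theorem TrP_sub {α : Type} {p : ℕ} {P : List (Item α)}
    {κs : List (Ker ℂ)} (g g' : List ℕ → ℂ) (w : List ℕ) :
    TrP p P κs (fun d => g d - g' d) w = TrP p P κs g w - TrP p P κs g' w := by
  have := TrP_add (p := p) (P := P) (κs := κs) (fun d => g d - g' d) g' w
  simp only [sub_add_cancel] at this
  rw [this]; ring

/-! ### bounds by angle assignments -/

theorem lft_cup_nonneg {p : ℕ} {g : List ℕ → ℝ} (hg : ∀ d, 0 ≤ g d) (k : ℕ) (w : List ℕ) :
    0 ≤ lft (cupT p) k g w := by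
  have := TrP_nonneg (p := p) (P := [Item.cup (α := ℕ) k]) (κs := []) (by simp) hg w
  exact this

theorem lft_cap_nonneg {p : ℕ} {g : List ℕ → ℝ} (hg : ∀ d, 0 ≤ g d) (k : ℕ) (w : List ℕ) :
    0 ≤ lft (capT p) k g w := by
  have := TrP_nonneg (p := p) (P := [Item.cap (α := ℕ) k]) (κs := []) (by simp) hg w
  exact this

theorem lft_box_nonneg {p : ℕ} {κ : Ker ℝ} (hκ : ∀ n a b c d, 0 ≤ κ n a b c d)
    {g : List ℕ → ℝ} (hg : ∀ d, 0 ≤ g d) (k : ℕ) (w : List ℕ) :
    0 ≤ lft (boxT p κ) k g w := by
  have := TrP_nonneg (p := p) (P := [Item.box (α := ℕ) k 0]) (κs := [κ]) (by simpa using hκ) hg w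
  exact this

theorem prodK_nonneg {κs : List (Ker ℝ)} (h0 : ∀ κ ∈ κs, ∀ n a b c d, 0 ≤ κ n a b c d)
    (cs : List (Cor ℕ)) : 0 ≤ prodK κs cs := by
  induction κs generalizing cs with
  | nil => cases cs <;> simp [prodK]
  | cons κ κs ih =>
    cases cs with
    | nil => simp [prodK]
    | cons c cs =>
      exact mul_nonneg (h0 κ (by simp) _ _ _ _ _) (ih (fun κ' h' => h0 κ' (by simp [h'])) cs)

theorem TrP_lower {α : Type} {p : ℕ} {P : List (Item α)} {κs : List (Ker ℝ)}
    (hl : (labels P).length = κs.length) {g : List ℕ → ℝ}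
    (h0 : ∀ κ ∈ κs, ∀ n a b c d, 0 ≤ κ n a b c d) (hg : ∀ d, 0 ≤ g d) {d : List ℕ}
    {cs : List (Cor ℕ)} (h : AngN p P d cs) :
    prodK κs cs * g d ≤ TrP p P κs g [0, 0] := by
  induction h generalizing κs g with
  | nil =>
    have h1 : κs = [] := List.length_eq_zero_iff.1 (by rw [← hl]; rfl)
    subst h1
    simp [TrP, prodK]
  | @cup P l r a b cs h ih =>
    have := ih (κs := κs) hl (g := lft (cupT p) l.length g) h0 (lft_cup_nonneg hg _)
    rw [tr_lft_append] at this
    simpa [cupT, TrP] using this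
  | @cap P l r x i cs h hi ih =>
    have := ih (κs := κs) hl (g := lft (capT p) l.length g) h0 (lft_cap_nonneg hg _)
    rw [tr_lft_append] at this
    refine le_trans ?_ this
    refine mul_le_mul_of_nonneg_left ?_ (prodK_nonneg h0 cs)
    simp only [capT]
    exact Finset.single_le_sum (f := fun i => g (l ++ (x + i) :: 0 :: (p - i) :: r))
      (fun i _ => hg _) (Finset.mem_range.2 (by omega))
  | @box P l r x y t e c cs h h1 h2 h3 ih =>
    cases κs with
    | nil => simp [labels] at hl
    | cons κ κs =>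
      have hκ := h0 κ (by simp)
      have h0' : ∀ κ' ∈ κs, ∀ n a b c d, 0 ≤ κ' n a b c d := fun κ' h' => h0 κ' (by simp [h'])
      have := ih (κs := κs) (by simpa [labels] using hl) (g := lft (boxT p κ) l.length g) h0'
        (lft_box_nonneg hκ hg _)
      rw [tr_lft_append] at this
      refine le_trans ?_ this
      simp only [prodK]
      rw [mul_comm (κ _ _ _ _ _), mul_assoc]
      refine mul_le_mul_of_nonneg_left ?_ (prodK_nonneg h0' cs)
      have ht : t ≤ p := by omega
      simp only [boxT, if_pos ht]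
      set F : ℕ → ℕ → ℕ → ℝ := fun n uL uR => κ n uL uR (t - uL - uR) (p - t) *
        g (l ++ (x + uL) :: (t - uL - uR) :: (y + uR) :: r) with hF
      have hF0 : ∀ n uL uR, 0 ≤ F n uL uR := fun n uL uR => mul_nonneg (hκ _ _ _ _ _) (hg _)
      have e1 : κ c.n c.uL c.uR c.uB c.uT * g (l ++ (x + c.uL) :: c.uB :: (y + c.uR) :: r) =
          F c.n c.uL c.uR := by
        rw [hF]
        have : t - c.uL - c.uR = c.uB := by omega
        have h' : p - t = c.uT := by omega
        simp only [this, h']
      rw [e1]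
      calc F c.n c.uL c.uR ≤ ∑ uR ∈ range (t + 1 - c.uL), F c.n c.uL uR :=
            Finset.single_le_sum (f := fun uR => F c.n c.uL uR) (fun i _ => hF0 _ _ _)
              (Finset.mem_range.2 (by omega))
        _ ≤ ∑ uL ∈ range (t + 1), ∑ uR ∈ range (t + 1 - uL), F c.n uL uR :=
            Finset.single_le_sum (f := fun uL => ∑ uR ∈ range (t + 1 - uL), F c.n uL uR)
              (fun i _ => Finset.sum_nonneg fun j _ => hF0 _ _ _) (Finset.mem_range.2 (by omega))
        _ ≤ ∑ n ∈ range (p + 1), ∑ uL ∈ range (t + 1), ∑ uR ∈ range (t + 1 - uL), F n uL uR :=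
            Finset.single_le_sum (f := fun n => ∑ uL ∈ range (t + 1),
              ∑ uR ∈ range (t + 1 - uL), F n uL uR)
              (fun i _ => Finset.sum_nonneg fun j _ => Finset.sum_nonneg fun k _ => hF0 _ _ _)
              (Finset.mem_range.2 (by omega))

theorem TrP_upper {α : Type} {p : ℕ} {P : List (Item α)} {κs : List (Ker ℂ)}
    (hl : (labels P).length = κs.length) {g : List ℕ → ℂ} {B : ℝ} (hB : 0 ≤ B)
    (h : ∀ d cs, AngN p P d cs → ‖prodK κs cs‖ * ‖g d‖ ≤ B) :
    ‖TrP p P κs g [0, 0]‖ ≤ ((p : ℝ) + 1) ^ (3 * P.length) * B := by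
  have p1 : (1 : ℝ) ≤ (p : ℝ) + 1 := by
    have : (0 : ℝ) ≤ (p : ℝ) := Nat.cast_nonneg p
    linarith
  induction P generalizing κs g B with
  | nil =>
    have h1 : κs = [] := List.length_eq_zero_iff.1 (by rw [← hl]; rfl)
    subst h1
    have := h [0, 0] [] AngN.nil
    simpa [TrP, prodK] using this
  | cons I P ih =>
    have key : ∀ {κs' : List (Ker ℂ)} {g' : List ℕ → ℂ}, (labels P).length = κs'.length →
        (∀ d cs, AngN p P d cs → ‖prodK κs' cs‖ * ‖g' d‖ ≤ ((p : ℝ) + 1) ^ 3 * B) →
        ‖TrP p P κs' g' [0, 0]‖ ≤ ((p : ℝ) + 1) ^ (3 * (I :: P).length) * B := by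
      intro κs' g' hl' h'
      refine (ih hl' (by positivity) h').trans (le_of_eq ?_)
      rw [List.length_cons]
      ring
    cases I with
    | cup k =>
      refine key hl fun d cs hd => ?_
      rcases tr_lft_cases (R := ℂ) (cupT p) k d with h0 | ⟨l, w', h1, h2, h3⟩
      · rw [h0]; simp; positivity
      · subst h1; subst h2
        rw [h3]
        match w', hd with
        | [], _ => simp [cupT]; positivity
        | [_], _ => simp [cupT]; positivity
        | [_, _], _ => simp [cupT]; positivity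
        | a :: e :: b :: r, hd =>
          simp only [cupT]
          split_ifs with he
          · subst he
            have := h _ _ (AngN.cup hd)
            refine this.trans ?_
            have : (1 : ℝ) ≤ ((e : ℝ) + 1) ^ 3 := one_le_pow₀ p1
            nlinarith
          · simp; positivity
    | cap k =>
      refine key hl fun d cs hd => ?_
      rcases tr_lft_cases (R := ℂ) (capT p) k d with h0 | ⟨l, w', h1, h2, h3⟩
      · rw [h0]; simp; positivity
      · subst h1; subst h2
        rw [h3]
        match w', hd with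
        | [], _ => simp [capT]; positivity
        | x :: r, hd =>
          simp only [capT]
          have hn := norm_sum_le (range (p + 1 - x))
            (fun i => g (l ++ (x + i) :: 0 :: (p - i) :: r))
          refine (mul_le_mul_of_nonneg_left hn (norm_nonneg _)).trans ?_
          rw [Finset.mul_sum]
          refine (Finset.sum_le_sum (g := fun _ => B) fun i hi => ?_).trans ?_
          · exact h _ _ (AngN.cap hd (by have := Finset.mem_range.1 hi; omega))
          · rw [Finset.sum_const, Finset.card_range, nsmul_eq_mul]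
            refine mul_le_mul_of_nonneg_right ?_ hB
            have h4 : ((p + 1 - x : ℕ) : ℝ) ≤ (p : ℝ) + 1 := by
              have : p + 1 - x ≤ p + 1 := by omega
              exact_mod_cast this
            have : (p : ℝ) + 1 ≤ ((p : ℝ) + 1) ^ 3 := le_self_pow₀ p1 (by norm_num)
            linarith
    | box k a =>
      cases κs with
      | nil => simp [labels] at hl
      | cons κ κs =>
        refine key (by simpa [labels] using hl) fun d cs hd => ?_
        rcases tr_lft_cases (R := ℂ) (boxT p κ) k d with h0 | ⟨l, w', h1, h2, h3⟩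
        · rw [h0]; simp; positivity
        · subst h1; subst h2
          rw [h3]
          match w', hd with
          | [], _ => simp [boxT]; positivity
          | [_], _ => simp [boxT]; positivity
          | [_, _], _ => simp [boxT]; positivity
          | x :: t :: y :: r, hd =>
            simp only [boxT]
            split_ifs with ht
            · have hterm : ∀ n ∈ range (p + 1), ∀ uL ∈ range (t + 1), ∀ uR ∈ range (t + 1 - uL),
                  ‖prodK κs cs‖ * ‖κ n uL uR (t - uL - uR) (p - t) *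
                    g (l ++ (x + uL) :: (t - uL - uR) :: (y + uR) :: r)‖ ≤ B := by
                intro n hn uL huL uR huR
                rw [Finset.mem_range] at hn huL huR
                have := h _ _ (AngN.box (e := a) (c := ⟨n, uL, uR, t - uL - uR, p - t⟩) hd
                  (by simp only; omega) (by simp only; omega) (by simp only; omega))
                simp only [prodK] at this
                rw [norm_mul] at this
                rw [norm_mul]
                calc ‖prodK κs cs‖ * (‖κ n uL uR (t - uL - uR) (p - t)‖ *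
                    ‖g (l ++ (x + uL) :: (t - uL - uR) :: (y + uR) :: r)‖) =
                    ‖κ n uL uR (t - uL - uR) (p - t)‖ * ‖prodK κs cs‖ *
                    ‖g (l ++ (x + uL) :: (t - uL - uR) :: (y + uR) :: r)‖ := by ring
                  _ ≤ B := this
              have hsum : ‖prodK κs cs‖ * ‖∑ n ∈ range (p + 1), ∑ uL ∈ range (t + 1),
                  ∑ uR ∈ range (t + 1 - uL), κ n uL uR (t - uL - uR) (p - t) *
                    g (l ++ (x + uL) :: (t - uL - uR) :: (y + uR) :: r)‖ ≤
                  ∑ n ∈ range (p + 1), ∑ uL ∈ range (t + 1), ∑ uR ∈ range (t + 1 - uL), B := by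
                refine (mul_le_mul_of_nonneg_left (norm_sum_le _ _) (norm_nonneg _)).trans ?_
                rw [Finset.mul_sum]
                refine Finset.sum_le_sum fun n hn => ?_
                refine (mul_le_mul_of_nonneg_left (norm_sum_le _ _) (norm_nonneg _)).trans ?_
                rw [Finset.mul_sum]
                refine Finset.sum_le_sum fun uL huL => ?_
                refine (mul_le_mul_of_nonneg_left (norm_sum_le _ _) (norm_nonneg _)).trans ?_
                rw [Finset.mul_sum]
                exact Finset.sum_le_sum fun uR huR => hterm n hn uL huL uR huR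
              refine hsum.trans ?_
              have b1 : ∀ uL, ∑ uR ∈ range (t + 1 - uL), B ≤ ((p : ℝ) + 1) * B := by
                intro uL
                rw [Finset.sum_const, Finset.card_range, nsmul_eq_mul]
                refine mul_le_mul_of_nonneg_right ?_ hB
                have : t + 1 - uL ≤ p + 1 := by omega
                exact_mod_cast this
              have b2 : ∑ uL ∈ range (t + 1), ∑ uR ∈ range (t + 1 - uL), B ≤
                  ((p : ℝ) + 1) * (((p : ℝ) + 1) * B) := by
                refine (Finset.sum_le_sum fun uL _ => b1 uL).trans ?_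
                rw [Finset.sum_const, Finset.card_range, nsmul_eq_mul]
                refine mul_le_mul_of_nonneg_right ?_ (by positivity)
                have : t + 1 ≤ p + 1 := by omega
                exact_mod_cast this
              rw [Finset.sum_const, Finset.card_range, nsmul_eq_mul]
              push_cast
              calc ((p : ℝ) + 1) * ∑ uL ∈ range (t + 1), ∑ uR ∈ range (t + 1 - uL), B ≤
                  ((p : ℝ) + 1) * (((p : ℝ) + 1) * (((p : ℝ) + 1) * B)) :=
                    mul_le_mul_of_nonneg_left b2 (by positivity)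
                _ = ((p : ℝ) + 1) ^ 3 * B := by ring
            · simp; positivity

end Pool.Agent.Helper9.FA
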